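import Pool.Agent.Lib.MP_b5021c_nt.IfaceSF
import Pool.Agent.Lib.MP_b5021c_nt.E2.H65.Trm

/-!
# Board b5, stage 3, chapter SF, row SF_SFZ: the result of the chapter
-/

namespace Pool.Agent.B5.H39

open scoped LaurentPolynomial
open Polynomial Pool.Agent.B5

theorem sfz_norm_emb (k : ℤ) (h : |k| = 1) : ‖(Coef.emb k : ℂ)‖ = 1 := by
  have h1 : (Coef.emb k : ℂ) = ((k : ℤ) : ℂ) := eq_intCast _ k
  rw [h1, Complex.norm_intCast, ← Int.cast_abs, h, Int.cast_one]

theorem sfz_roots {T' : ℝ} (hT' : 1 < |T'|) {s : ℂ[X]} (hs : ZF s) :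
    ((1 - C (T' : ℂ) * X) * s).roots.filter (fun x => ‖x‖ < 1) = {((T' : ℂ))⁻¹} := by
  have hT0 : (T' : ℂ) ≠ 0 := by
    intro h
    have h1 : T' = 0 := by exact_mod_cast h
    rw [h1, abs_zero] at hT'
    linarith
  have hs0 : s ≠ 0 := by
    rintro rfl
    exact hs 0 (by simp) (by simp)
  have hl : (1 - C (T' : ℂ) * X : ℂ[X]) = C (-(T' : ℂ)) * (X - C ((T' : ℂ))⁻¹) := by
    rw [mul_sub, ← C_mul, neg_mul, mul_inv_cancel₀ hT0, C_neg, C_neg, C_1]
    ring
  have hl0 : (1 - C (T' : ℂ) * X : ℂ[X]) ≠ 0 := by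
    rw [hl]
    exact mul_ne_zero (C_ne_zero.mpr (neg_ne_zero.mpr hT0)) (X_sub_C_ne_zero _)
  rw [roots_mul (mul_ne_zero hl0 hs0), hl, roots_C_mul _ (neg_ne_zero.mpr hT0), roots_X_sub_C,
    Multiset.filter_add]
  have h1 : s.roots.filter (fun x => ‖x‖ < 1) = 0 := by
    rw [Multiset.filter_eq_nil]
    intro z hz hz1
    exact hs z hz1 ((mem_roots hs0).mp hz)
  have h2 : ‖((T' : ℂ))⁻¹‖ < 1 := by
    rw [norm_inv, Complex.norm_real, Real.norm_eq_abs]
    exact inv_lt_one_of_one_lt₀ hT'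
  rw [h1, add_zero, Multiset.filter_singleton, if_pos h2]

/-- Row SF_SFZ. -/
theorem sfz (hBig : BigzS) (hNb : NbzS) (hLd : LdzS) (hCz : CzaS) (hE1 : E1S) (hMV : MVS)
    (hMm : MmulS) : SfzS := by
  intro P L _ _ _ _ _ phi D S i0 eta h c n G θ m q f hFP hF hK hθ hP hq hq0 hf hf0 hor hrk
  obtain ⟨hLD, -⟩ := hLd P L phi D S eta θ m q f hF.cc.dd (by omega) hF.cc.ray hP hq hq0 hf
  by_cases hb : ∀ i, ¬ 1 < M ((G i).coeff 0)
  · have h1 := hNb P L phi D S i0 eta h c n G θ m q f hF hθ hP hq hf hLD hb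
    exact Or.inr (Or.inl (by linarith))
  · have hsnp : (snp phi S i0 G).Nonempty := by
      rcases hor with h1 | h1
      · exact h1
      · exfalso
        apply hb
        intro i hi
        have h2 : i ∈ big G := by
          unfold big
          exact Finset.mem_filter.mpr ⟨Finset.mem_univ i, hi⟩
        rw [h1] at h2
        exact absurd h2 (Finset.notMem_empty i)
    set V : RO ℤ := D.coeff 0 + (eta : RO ℤ) * D.coeff S with hV
    have hVv : V = LaurentPolynomial.T m * toLaurent (q + X * f) := by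
      rw [hV, hq, hf, ← mul_add, ← map_add]
    have hV0 : V ≠ 0 := hF.cc.v0
    have hVp : V = c * ∏ i, (G i).coeff 0 := hF.v00
    obtain ⟨T', s, W, hC⟩ := hCz q f hLD
    have hv0 : ‖(Coef.emb ((q + X * f).coeff 0) : ℂ)‖ = 1 := by
      apply sfz_norm_emb
      rw [coeff_add, mul_coeff_zero, coeff_X_zero, zero_mul, add_zero]
      exact hq0
    have hv : (q + X * f).map (Coef.emb : ℤ →+* ℂ) = (1 - C (T' : ℂ) * X) * s := hC.v
    have hT1 : 1 < |T'| := by
      rcases lt_or_eq_of_le hC.one with h1 | h1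
      · exact h1
      · exfalso
        have hCV : ClassV 1 V := by
          refine ⟨le_rfl, m, q + X * f, hVv, hv0, ?_⟩
          intro z hz
          rw [hv, eval_mul]
          refine mul_ne_zero ?_ (hC.zf z hz)
          intro h2
          rw [eval_sub, eval_one, eval_mul, eval_C, eval_X, sub_eq_zero] at h2
          have h3 := congrArg norm h2
          rw [norm_one, norm_mul, Complex.norm_real, Real.norm_eq_abs, ← h1, one_mul] at h3
          linarith
        exact hb (H65.not_big hMm c (fun i => (G i).coeff 0) V hVp hV0 ((hMV ℤ).1 1 V hCV).2)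
    have hCP : ClassP |T'| V := by
      refine ⟨hT1, m, q + X * f, hVv, hv0, ((T' : ℂ))⁻¹, ?_, ?_⟩
      · rw [norm_inv, Complex.norm_real, Real.norm_eq_abs]
      · rw [hv]
        exact sfz_roots hT1 hC.zf
    have hMc : M c = 1 := by
      rw [hVp] at hCP
      rcases (hE1 ℤ).2 |T'| c (∏ i, (G i).coeff 0) hCP with ⟨-, h2⟩ | ⟨h2, -⟩
      · exfalso
        have h3 := (hMV ℤ).1 1 _ h2
        exact hb (H65.not_big hMm 1 (fun i => (G i).coeff 0) (∏ i, (G i).coeff 0)
          (one_mul _).symm h3.1 h3.2)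
      · exact ((hMV ℤ).1 1 c h2).2
    rcases hBig P L phi D S i0 eta h c n G θ |T'| m q f hFP hF hK hθ hP hq hf hLD hf0 hMc hCP hsnp
      hrk with h1 | h1
    · exact Or.inl h1
    · exact Or.inr (Or.inr h1)

end Pool.Agent.B5.H39
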